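import Mathlib
import Pool.Agent.R93.CycCover

open R93.Cyc

namespace Pool.Agent.Results.MP_a9ea17_co.CyclicCovering

/-- For every `k > 2`, with `t = 4 k + 1`, there are nonzero residues `x 0, …, x (k - 1)` mod `t`
such that the nonzero residues are exactly the `± x i` and `± (x i + x (i + 1))` (indices mod `k`)
and the sum of the `x i` is coprime to `t`. -/
theorem result : ∀ k : ℕ, 2 < k → ∃ x : Fin k → ZMod (4 * k + 1),
    (∀ i, x i ≠ 0) ∧
    {r : ZMod (4 * k + 1) | r ≠ 0} = ⋃ i : Fin k,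
      ({x i, -x i, x i + x ⟨(i.1 + 1) % k, Nat.mod_lt _ (Nat.zero_lt_of_lt i.2)⟩,
        -(x i + x ⟨(i.1 + 1) % k, Nat.mod_lt _ (Nat.zero_lt_of_lt i.2)⟩)} :
        Set (ZMod (4 * k + 1))) ∧
    Nat.gcd (∑ i, x i).val (4 * k + 1) = 1 := by
  intro k hk
  obtain ⟨X, hX⟩ := exists_good k hk
  set t : ℕ := 4 * k + 1 with ht
  have : NeZero t := ⟨by omega⟩
  have ht0 : ((4 * (k : ℤ) + 1 : ℤ) : ZMod t) = 0 := by
    have := ZMod.natCast_self t
    rw [ht] at this ⊢
    push_cast at this ⊢
    exact this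
  let x : Fin k → ZMod t := fun i => ((X i.1 : ℤ) : ZMod t)
  let s : Fin k → ZMod t := fun i =>
    x i + x ⟨(i.1 + 1) % k, Nat.mod_lt _ (Nat.zero_lt_of_lt i.2)⟩
  have hnext : ∀ i : Fin k, s i
      = ((X i.1 + (if i.1 + 1 = k then X 0 else X (i.1 + 1)) : ℤ) : ZMod t) := by
    intro i
    simp only [s, x]
    push_cast
    congr 1
    by_cases h : i.1 + 1 = k
    · rw [if_pos h]
      simp [h]
    · rw [if_neg h]
      have : (i.1 + 1) % k = i.1 + 1 := Nat.mod_eq_of_lt (by have := i.2; omega)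
      simp [this]
  let f : Fin k × Fin 4 → ZMod t := fun p => ![x p.1, -x p.1, s p.1, -s p.1] p.2
  have key : ∀ r : ZMod t, r ≠ 0 → ∃ i : Fin k, r = x i ∨ r = -x i ∨ r = s i ∨ r = -s i := by
    intro r hr
    have hrv : r.val < t := ZMod.val_lt r
    have hr0 : r.val ≠ 0 := by
      intro h
      exact hr ((ZMod.val_eq_zero r).1 h)
    obtain ⟨a, ha1, ha2, har⟩ : ∃ a : ℕ, 1 ≤ a ∧ a ≤ 2 * k ∧ (r = (a : ZMod t) ∨ r = -(a : ZMod t)) := by
      by_cases hle : r.val ≤ 2 * k
      · exact ⟨r.val, by omega, hle, Or.inl (ZMod.natCast_zmod_val r).symm⟩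
      · refine ⟨t - r.val, by omega, by omega, Or.inr ?_⟩
        rw [Nat.cast_sub hrv.le, ZMod.natCast_self, ZMod.natCast_zmod_val]
        ring
    obtain ⟨i, hi, c, hc⟩ := hX.cov a ha1 ha2
    have cast_eq : ∀ u v : ℤ, u = v + c * (4 * (k : ℤ) + 1) → (u : ZMod t) = (v : ZMod t) := by
      intro u v huv
      rw [huv, Int.cast_add, Int.cast_mul, ht0, mul_zero, add_zero]
    refine ⟨⟨i, hi⟩, ?_⟩
    have hs := hnext ⟨i, hi⟩
    rcases hc with h | h | h | h
    · have h1 := cast_eq _ _ h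
      have hx : x ⟨i, hi⟩ = (a : ZMod t) := by
        simp only [x]; rw [h1]; simp
      rcases har with rfl | rfl
      · exact Or.inl hx.symm
      · right; left; rw [hx]
    · have h1 := cast_eq _ _ h
      have hx : x ⟨i, hi⟩ = -(a : ZMod t) := by
        simp only [x]; rw [h1]; simp
      rcases har with rfl | rfl
      · right; left; rw [hx, neg_neg]
      · left; rw [hx]
    · have h1 := cast_eq _ _ h
      have hx : s ⟨i, hi⟩ = (a : ZMod t) := by
        rw [hs, h1]; simp
      rcases har with rfl | rfl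
      · right; right; left; exact hx.symm
      · right; right; right; rw [hx]
    · have h1 := cast_eq _ _ h
      have hx : s ⟨i, hi⟩ = -(a : ZMod t) := by
        rw [hs, h1]; simp
      rcases har with rfl | rfl
      · right; right; right; rw [hx, neg_neg]
      · right; right; left; rw [hx]
  have hf : ∀ r : ZMod t, r ≠ 0 → ∃ p, f p = r := by
    intro r hr
    obtain ⟨i, h | h | h | h⟩ := key r hr
    · exact ⟨(i, 0), by simp [f, h]⟩
    · exact ⟨(i, 1), by simp [f, h]⟩
    · exact ⟨(i, 2), by simp [f, h]⟩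
    · exact ⟨(i, 3), by simp [f, h]⟩
  have hf0 : ∀ p, f p ≠ 0 := by
    intro p hp
    have hsurj : Function.Surjective f := by
      intro r
      by_cases hr : r = 0
      · exact ⟨p, by rw [hp, hr]⟩
      · exact hf r hr
    have hcard := Fintype.card_le_of_surjective f hsurj
    rw [ZMod.card, Fintype.card_prod, Fintype.card_fin, Fintype.card_fin] at hcard
    omega
  have hx0 : ∀ i, x i ≠ 0 := fun i => by simpa [f] using hf0 (i, 0)
  have hs0 : ∀ i, s i ≠ 0 := fun i => by simpa [f] using hf0 (i, 2)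
  refine ⟨x, hx0, ?_, ?_⟩
  · ext r
    simp only [Set.mem_ofPred_eq, Set.mem_iUnion, Set.mem_insert_iff, Set.mem_singleton_iff]
    constructor
    · intro hr
      exact key r hr
    · rintro ⟨i, h | h | h | h⟩
      · rw [h]; exact hx0 i
      · rw [h]; exact neg_ne_zero.2 (hx0 i)
      · rw [h]; exact hs0 i
      · rw [h]; exact neg_ne_zero.2 (hs0 i)
  · have hsum : ((∑ i ∈ Finset.range k, X i : ℤ) : ZMod t) = ∑ i, x i := by
      rw [Int.cast_sum, Finset.sum_range]
    have hunit : IsUnit (∑ i, x i) := by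
      obtain ⟨u, v, huv⟩ := hX.cop
      have h1 := congrArg (fun n : ℤ => (n : ZMod t)) huv
      rw [Int.cast_add, Int.cast_mul, Int.cast_mul, ht0, mul_zero, add_zero, hsum,
        Int.cast_one] at h1
      exact IsUnit.of_mul_eq_one _ (by rw [mul_comm]; exact h1)
    have hv : ((∑ i, x i).val : ZMod t) = ∑ i, x i := ZMod.natCast_zmod_val _
    rw [← hv] at hunit
    exact (ZMod.isUnit_iff_coprime _ _).1 hunit

end Pool.Agent.Results.MP_a9ea17_co.CyclicCovering
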